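import Pool.Agent.Work.MP_a60482_ex2.Main

/-!
# MP_a60482_ag: the Kuenneth conjecture fails for exotic gradings

The axioms of a Weil cohomology in the problem file (no Lefschetz axiom) do not imply the
Kuenneth standard conjecture: whenever a Weil cohomology `H` takes values in polarizable
effective rational Hodge structures and the Lie algebra of the Hodge group of `H(Y)` has a
nonzero element of type `(r, -r)`, `r ≥ 3` (for instance, `Y` a very general quintic threefold),
the same algebras `H(X)`, pull-backs, traces and algebraic classes have a second grading which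
satisfies the same axioms, and for which `C(Y)` fails.  With hard Lefschetz for both gradings,
`C(X)` for one is equivalent to `C(X)` for the other.
-/

open CategoryTheory MonoidalCategory CartesianMonoidalCategory

universe u v w x

namespace Pool.Agent.Results.MP_a60482_ag.ExoticGrading

open Pool.KC Pool.Exo

theorem result {V : Type u} [Category.{v} V] [CartesianMonoidalCategory V] :
    (∀ (D : WeilData.{u, v, w, 0} V ℂ) (S : HodgeStr D), D.IsWeil → S.IsPolarizable →
      ∀ (Y : V) (r : ℕ), 3 ≤ r → (S.HasLevel r Y ∨ S.BigSp r Y) → Exotic r D Y) ∧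
    ∀ (K : Type x) [Field K] (D : WeilData.{u, v, w, x} V K) (g : D.Regrading), D.IsWeil →
      (D.regrade g).IsWeil → ∀ (X : V) (l : D.H X), l ∈ D.C X 1 → D.HardLefschetz X l →
      (D.regrade g).HardLefschetz X l →
      (D.ConjC X ↔ (D.regrade g).ConjC X) ∧ (D.ConjC X → ∀ i, g.deg X i = D.deg X i) := by
  refine ⟨?_, ?_⟩
  · intro D S hD hS Y r hr h
    rcases h with h | h
    · exact Pool.Exo.crit1 hD hS Y r hr h
    · exact Pool.Exo.crit1 hD hS Y r hr (Pool.Exo.crit2 hD hS Y r h)
  · intro K _ D g hD hD' X l hl hL hL'
    exact grading_forced D hD g hD' X l hl hL hL'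

end Pool.Agent.Results.MP_a60482_ag.ExoticGrading
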