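import Pool.Agent.Work.MP_a60482_np.Final

/-!
# The nilpotence conjecture implies the Kuenneth standard conjecture

Let `H` be a Weil cohomology with coefficients in a field `K` of characteristic zero and with
the hard Lefschetz theorem, on the connected smooth projective varieties over an algebraically
closed field, with very general hypersurface sections; the algebraic classes are the `K`-spans
of the classes of cycles (for instance: Betti cohomology of complex varieties, `K = ℚ`).  The
following are equivalent.

1. The Kuenneth standard conjecture `C(X)` for all `X`.
2. The sign conjecture `C⁺(X)` for all `X`.
3. The Lefschetz standard conjecture `B(X)` for all `X`.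
4. Nilpotence: for every `X`, every numerically trivial algebraic self-correspondence of `X`
   acts nilpotently on `H(X)`.
5. No phantoms: for every `X`, every numerically trivial idempotent algebraic
   self-correspondence of `X` acts by zero on `H(X)`.
6. Conservativity: for every `X`, every algebraic self-correspondence of `X` which is invertible
   modulo numerical equivalence acts bijectively on `H(X)`.

In particular the nilpotence conjecture (numerically trivial self-correspondences are nilpotent
modulo rational equivalence), which is a consequence of the conjectures of Kimura-O'Sullivan and
of Voevodsky, implies `B` and `C` for all complex varieties.  New is that 4, 5, 6 imply 1, 2, 3.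
-/

open CategoryTheory MonoidalCategory CartesianMonoidalCategory

universe u v w x b

namespace Pool.Agent.Results.MP_a60482_ag.NoPhantoms

open Pool.Std

theorem result {V : Type u} [Category.{v} V] [CartesianMonoidalCategory V]
    {K : Type x} [Field K] [CharZero K] (D : WeilCoh.{u, v, w, x} V K)
    (G : Polarization.{u, v, w, x, b} D) (h : D.IsWeil) (hK : D.CoefficientsIn K)
    (hc : D.Connected) (hP : G.IsPolarized) (hH : G.HasHypersurfaces)
    (hG : G.HasGenericSections) :
    [∀ X : V, D.ConjC X,
      ∀ X : V, D.SignConj X,
      ∀ (X : V) (M : G.Bund X), G.ConjB M,
      D.Nilpotence,
      D.NoPhantoms,
      D.Conservative].TFAE :=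
  Polarization.tfae_nil h hK hc hP hH hG

end Pool.Agent.Results.MP_a60482_ag.NoPhantoms
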