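import Pool.Agent.Work.MP_a60482_pf.Final

/-!
# The Kuenneth standard conjecture and the prime field

Let `H` be a Weil cohomology with coefficients in a field `K` of characteristic zero and with
the hard Lefschetz theorem, on the smooth projective varieties over an algebraically closed
field `k`; the algebraic classes are the `K`-spans of the classes of cycles.  Let `P` be a class
of varieties, stable under products and hypersurface sections, which generates all varieties by
taking very general fibres of morphisms to curves, and images under generically finite
morphisms: for instance the varieties defined over `k₀`, for an algebraically closed subfield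
`k₀` of `k`.  The following are equivalent.

1. The Kuenneth standard conjecture `C(X)` for all `X`.
2. The sign conjecture `C⁺(X)` for all `X`.
3. The Lefschetz standard conjecture `B(X)` for all `X`.
4. The Lefschetz standard conjecture `B(X)` for all `X` in `P`.
5. For every `U` in `P` of even dimension `2 n ≥ 2`, the spaces of algebraic classes of
   codimension `n - 1` and `n + 1` on `U` have the same dimension.
6. For every `X` in `P`, of dimension `n`: `C(X)` holds and, if `n ≥ 1`, the spaces of algebraic
   classes of codimension `n - 1` and `n + 1` on `X × X` have the same dimension.

If `k₀` is the algebraic closure of a finite field `𝔽_p`, `C(X)` is known for `X` in `P`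
(Katz and Messing).  So the Kuenneth standard conjecture for all fields of characteristic `p`
is equivalent to the Lefschetz standard conjecture over the algebraic closure of `𝔽_p`, and to
the equality of two ranks for the squares of the varieties over the algebraic closure of `𝔽_p`.
-/

open CategoryTheory MonoidalCategory CartesianMonoidalCategory

universe u v w x b

namespace Pool.Agent.Results.MP_a60482_ag.PrimeField

open Pool.Std

theorem result {V : Type u} [Category.{v} V] [CartesianMonoidalCategory V]
    {K : Type x} [Field K] [CharZero K] (D : WeilCoh.{u, v, w, x} V K)
    (G : Polarization.{u, v, w, x, b} D) (h : D.IsWeil) (hK : D.CoefficientsIn K)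
    (hc : D.Connected) (hP : G.IsPolarized) (hH : G.HasHypersurfaces) (hS : G.HasSections)
    (P : V → Prop) (hgen : G.GeneratedBy P) (hcl : G.Closed P) :
    [∀ X : V, D.ConjC X,
      ∀ X : V, D.SignConj X,
      ∀ (X : V) (M : G.Bund X), G.ConjB M,
      ∀ (X : V) (M : G.Bund X), P X → G.ConjB M,
      ∀ n ≥ 1, ∀ U : V, P U → D.dim U = 2 * n → D.rank U (n - 1) = D.rank U (n + 1),
      ∀ X : V, P X → D.ConjC X ∧
        (1 ≤ D.dim X → D.rank (X ⊗ X) (D.dim X - 1) = D.rank (X ⊗ X) (D.dim X + 1))].TFAE :=
  Polarization.tfae_prime h hK hc hP hH hS hgen hcl

end Pool.Agent.Results.MP_a60482_ag.PrimeField
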