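import Pool.Agent.Work.MP_a60482_dg.Final

/-!
# The standard conjectures degree by degree, and a zero-one law for the Kuenneth conjecture

Let `H` be a Weil cohomology with hard Lefschetz theorem, on a class of connected smooth
projective varieties with very general hypersurface sections.  `B_i(X)`: an algebraic class on
`X × X` induces the inverse of the Lefschetz isomorphism on `H^i(X)`.  `C_i(X)`: the Kuenneth
projector of degree `i` of `X` is algebraic.

1. For `n ≥ 1` the following are equivalent: the Lefschetz standard conjecture `B` in dimension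
   at most `n`; `B_(n-1)` for the varieties of dimension `n`; `B_i(X)` for all `i < n` and all
   `X` of every dimension; `C`, resp. the sign conjecture `C⁺`, for the very general
   hypersurface sections `Y` of the products of two varieties of dimension `n`; every such `Y`
   has one algebraic self-correspondence which is the identity on `H^(2n-2)(Y)` and zero on the
   middle cohomology `H^(2n-1)(Y)`.
2. For `n ≥ 1` the following are equivalent: `C` in dimension at most `n`; `C_(n-1)` for the
   varieties of dimension `n`; `C_i(X)` for all `i < n` and all `X` of every dimension.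
3. For all `i`: (`C_(2i)` for all `X`) implies (`B_i` for all `X`), which implies (`C_i` for
   all `X`).
4. If `Y` is a very general hypersurface section of `X` and `i < dim Y`, then `B_i(X)` and
   `B_i(Y)` are equivalent, and `C_i(Y)` implies `C_i(X)`.
5. `B`, `C`, `C⁺`, each for all varieties, are equivalent, and equivalent to the algebraicity of
   the projectors modulo `g` for one `g ≥ 2`.
6. Zero-one law: if `B` fails in dimension at most `n`, there are `A`, `B` of dimension `n`
   such that for all very general sections `Y` of `A × B` and all `P`, no algebraic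
   self-correspondence of `P × Y` is the identity on `H^k` and zero on `H^(k+1)`, for
   `2 n - 2 ≤ k ≤ 2 n - 1 + 2 dim P`.  (So the coefficients of an algebraic combination of the
   Kuenneth projectors of `P × Y` are equal in the degrees from `2 n - 2` to `2 n + 2 dim P`.)
-/

open CategoryTheory MonoidalCategory CartesianMonoidalCategory

universe u v w x y b

namespace Pool.Agent.Results.MP_a60482_ag.ZeroOne

open Pool.Std

theorem result {V : Type u} [Category.{v} V] [CartesianMonoidalCategory V]
    {K : Type x} [Field K] [CharZero K] {F : Type y} [Field F] [Algebra F K]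
    (D : WeilCoh.{u, v, w, x} V K) (G : Polarization.{u, v, w, x, b} D) (h : D.IsWeil)
    (hF : D.CoefficientsIn F) (hc : D.Connected) (hP : G.IsPolarized)
    (hS : G.HasSpreadingSections) :
    (∀ n ≥ 1,
      [∀ (X : V) (M : G.Bund X), D.dim X ≤ n → G.ConjB M,
        ∀ (X : V) (M : G.Bund X), D.dim X = n → G.LefschetzIn (n - 1) M,
        ∀ i < n, ∀ (X : V) (M : G.Bund X), G.LefschetzIn i M,
        G.ForSections n D.ConjC, G.ForSections n D.SignConj,
        G.ForSections n fun Y => D.Separated Y (2 * n - 2) (2 * n - 1)].TFAE ∧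
      [∀ X : V, D.dim X ≤ n → D.ConjC X, ∀ X : V, D.dim X = n → D.KunnethIn (n - 1) X,
        ∀ i < n, ∀ X : V, D.KunnethIn i X].TFAE) ∧
    (∀ i : ℕ, ((∀ X : V, D.KunnethIn (2 * i) X) → ∀ (X : V) (M : G.Bund X), G.LefschetzIn i M) ∧
      ((∀ (X : V) (M : G.Bund X), G.LefschetzIn i M) → ∀ X : V, D.KunnethIn i X)) ∧
    (∀ (X Y : V) (M : G.Bund X) (N : G.Bund Y) (j : Y ⟶ X), G.VeryGeneral M j →
      Polarization.Spreads (D := D) j → G.c N = D.pb j (G.c M) → ∀ i < D.dim Y,
        (G.LefschetzIn i M ↔ G.LefschetzIn i N) ∧ (D.KunnethIn i Y → D.KunnethIn i X)) ∧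
    [∀ (X : V) (M : G.Bund X), G.ConjB M, ∀ X : V, D.ConjC X, ∀ X : V, D.SignConj X,
      ∃ g ≥ 2, ∀ (r : ℕ) (X : V), D.ModConj g r X,
      ∀ n₀ : ℕ, ∃ n ≥ n₀, ∀ Y : V, D.dim Y + 1 = 2 * n →
        D.Separated Y (2 * n - 2) (2 * n - 1)].TFAE ∧
    ∀ n ≥ 1, (¬ ∀ (X : V) (M : G.Bund X), D.dim X ≤ n → G.ConjB M) →
      ∃ (A B : V) (N : G.Bund A) (M : G.Bund B), D.dim A = n ∧ D.dim B = n ∧
        ∀ (Y : V) (i : Y ⟶ A ⊗ B), G.VeryGeneral (G.box N M) i → ∀ (P : V) (k : ℕ),
          2 * n - 2 ≤ k → k ≤ 2 * n - 1 + 2 * D.dim P → ¬ D.Separated (P ⊗ Y) k (k + 1) :=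
  ⟨fun _ hn => ⟨Polarization.tfae_lef h hF hc hP hS hn, Polarization.tfae_kun h hF hc hP hS hn⟩,
    Polarization.chain h hF hc hP hS,
    fun _ _ _ _ _ hY hs hN _ hi => Polarization.local_iff h hP hY hs hN hi,
    Polarization.tfae_all h hF hc hP hS.hypersurfaces hS.sections,
    fun _ hn hno => Polarization.zero_one h hF hc hP hS.hypersurfaces hn hno⟩

end Pool.Agent.Results.MP_a60482_ag.ZeroOne
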